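import Pool.Agent.W957.CH.Stm2

/-!
# Project CH: parallel pairs (CH-PP)
-/

set_option autoImplicit false

namespace Pool.Agent.W585.CH.PP

open Pool.Agent.W957.CH Finset

/-- CH-PP -/
theorem t_PP (h1 : S_PR2) (h2 : S_GR) (h3 : S_X) (h4 : S_4A) (h5 : S_PCS) (h6 : S_R1)
    (h7 : S_PC0) : S_PP := by
  classical
  intro V _ X n c τ σ l l' w w' p q L1 L2 hS hP hlp hql hpq hbb
  obtain ⟨-, pc2, -, pc4⟩ := h7 V X n c hS.ok hS.good
  have hcl : ∀ i ∈ Icc p q, Cl X n c i := by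
    intro i hi
    rw [mem_Icc] at hi
    exact hP.cl i (by omega) (by omega)
  obtain ⟨ps1, ps2, ps3, -⟩ := h5 V X n c (Icc p q) hS.ok hS.good hcl
  have hcon : Con X.G (pcs X n c (Icc p q)) := ps3 p q hpq rfl
  have s1 := hP.s1
  have s2 := hP.s2
  have hll := hP.ll
  have hww := hP.ww
  have hwn := hP.wn
  have hl'n : l' < n := (hP.cl l' hll.le le_rfl).1
  have hcard := h6 V X n c τ σ p q hS (fun i h1 h2 => hP.cl i (by omega) (by omega)) (by omega) hbb
  have hfree : Free X.G n c l l' := fun i h1 h2 => (hP.cl i h1 h2).2.2.1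
  have hLd : ∀ x, x ∈ L1 → x ∈ L2 → False := fun x hx1 hx2 =>
    hP.ne (pc2 L1 L2 x hP.C1 hP.C2 hx1 hx2)
  -- the rerouting
  have hrer : ∃ ls E, Rer X n c ls (Ioo l l' ∪ Ioo w w') E ∧ ∀ x ∈ E, x ∈ L1 ∨ x ∈ L2 := by
    rcases hP.sep with hs | hs
    · obtain ⟨R1, hR1, hR1'⟩ := pc4 l w L1 hP.C1 hP.a1 hP.b1
      obtain ⟨R2, hR2, hR2'⟩ := pc4 l' w' L2 hP.C2 hP.a2 hP.b2
      refine ⟨_, R1 ++ R2, h1 V X n c l l' w w' R1 R2 hS.good hll hs hww hwn hfree hP.fr hR1 hR2
        (fun x hx hx' => hLd x (hR1' x hx) (hR2' x hx')), fun x hx => ?_⟩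
      rcases List.mem_append.1 hx with h | h
      · exact Or.inl (hR1' x h)
      · exact Or.inr (hR2' x h)
    · obtain ⟨R1, hR1, hR1'⟩ := pc4 w l L1 hP.C1 hP.b1 hP.a1
      obtain ⟨R2, hR2, hR2'⟩ := pc4 w' l' L2 hP.C2 hP.b2 hP.a2
      rw [union_comm]
      refine ⟨_, R1 ++ R2, h1 V X n c w w' l l' R1 R2 hS.good hww hs hll hl'n hP.fr hfree hR1 hR2
        (fun x hx hx' => hLd x (hR1' x hx) (hR2' x hx')), fun x hx => ?_⟩
      rcases List.mem_append.1 hx with h | h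
      · exact Or.inl (hR1' x h)
      · exact Or.inr (hR2' x h)
  obtain ⟨ls, E, hR, hE⟩ := hrer
  have hRc : (Ioo l l' ∪ Ioo w w').card ≤ (l' - l) + (w' - w) := by
    refine (card_union_le _ _).trans ?_
    rw [Nat.card_Ioo, Nat.card_Ioo]
    omega
  obtain ⟨-, -, -, g4⟩ := h2 V X n c ls (Ioo l l' ∪ Ioo w w') E hS.ok hS.good hR (by omega)
  obtain ⟨n', c', hg', himg⟩ := g4 (by
    have := hS.Ln
    omega)
  have hinj := hS.good.cr.inj
  obtain ⟨P, hPd⟩ : ∃ P, P = pcs X n c (Icc p q) := ⟨_, rfl⟩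
  rw [← hPd] at ps1 ps2 hcon hcard
  have hPA : P ⊆ X.A := by
    rw [hPd]
    exact filter_subset _ _
  have hPm : ∀ x ∈ P, (∃ i ∈ Icc p q, x = c i) ∨
      ∃ K, Comp X n c K ∧ x ∈ K ∧ ∃ i ∈ Icc p q, At X c K i := by
    intro x hx
    rw [hPd, pcs, mem_filter] at hx
    exact hx.2
  -- components attached to the middle
  have hK1 : ∀ i ∈ Icc p q, ¬ At X c L1 i := by
    intro i hi hA
    rw [mem_Icc] at hi
    have := h4 V X n c τ σ l i L1 hS (by omega) (by omega)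
      (fun r h1 h2 => hP.cl r h1 (by omega)) hP.C1 hP.a1 hA
    omega
  have hK2 : ∀ i ∈ Icc p q, ¬ At X c L2 i := by
    intro i hi hA
    rw [mem_Icc] at hi
    have := h4 V X n c τ σ i l' L2 hS (by omega) (by omega)
      (fun r h1 h2 => hP.cl r (by omega) h2) hP.C2 hA hP.a2
    omega
  have hdis : Disjoint P (img n' c') := by
    rw [himg, disjoint_left]
    intro x hx hxl
    rw [List.mem_toFinset, hR.mem] at hxl
    rcases hPm x hx with ⟨i, hi, rfl⟩ | ⟨K, hK, hxK, i, hi, hA⟩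
    · have hin := (hcl i hi).1
      rcases hxl with ⟨j, hj, hjR, hjc⟩ | hxE
      · have := hinj j i hj hin hjc
        subst this
        rw [mem_Icc] at hi
        exact hjR (mem_union_left _ (mem_Ioo.2 ⟨by omega, by omega⟩))
      · exact (hR.EA _ hxE).2 (mem_image.2 ⟨i, mem_range.2 hin, rfl⟩)
    · rcases hxl with ⟨j, hj, hjR, hjc⟩ | hxE
      · exact disjoint_left.1 hK.2.2.1 hxK (mem_image.2 ⟨j, mem_range.2 hj, hjc⟩)
      · rcases hE x hxE with h | h
        · have := pc2 K L1 x hK hP.C1 hxK h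
          subst this
          exact hK1 i hi hA
        · have := pc2 K L2 x hK hP.C2 hxK h
          subst this
          exact hK2 i hi hA
  -- the positions in `(w, w')`
  have hy : ∀ y, w < y → y < w' → c y ∈ nbr X.G X.A P →
      ∃ M, Comp X n c M ∧ At X c M y ∧ ∃ x, p ≤ x ∧ x ≤ q ∧ At X c M x := by
    intro y hy1 hy2 hyn
    obtain ⟨j, hj, hjI, hjc, hor⟩ := (ps2 (c y)).1 hyn
    have := hinj y j (by omega) hj hjc
    subst this
    rcases hor with ⟨i, hi, hc⟩ | ⟨K, hK, hKj, i, hi, hKi⟩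
    · exfalso
      rw [mem_Icc] at hi
      unfold Pool.Agent.W957.CH.cons at hc
      rcases hP.sep with hs | hs
      · omega
      · omega
    · rw [mem_Icc] at hi
      exact ⟨K, hK, hKj, i, hi.1, hi.2, hKi⟩
  by_contra hno
  obtain ⟨J, hJ⟩ : ∃ J : Finset ℕ, ∀ y, y ∈ J ↔ (w < y ∧ y < w') ∧ c y ∈ nbr X.G X.A P :=
    ⟨(Ioo w w').filter (fun y => c y ∈ nbr X.G X.A P), fun y => by
      rw [mem_filter, mem_Ioo]⟩
  have hJc : J.card ≤ 1 := by
    by_contra hc
    push Not at hc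
    obtain ⟨a, ha, b, hb, hab⟩ := one_lt_card.1 hc
    rw [hJ] at ha hb
    rcases lt_or_gt_of_ne hab with h | h
    · exact hno ⟨a, b, ha.1.1, h, hb.1.2, hy a ha.1.1 ha.1.2 ha.2, hy b hb.1.1 hb.1.2 hb.2⟩
    · exact hno ⟨b, a, hb.1.1, h, ha.1.2, hy b hb.1.1 hb.1.2 hb.2, hy a ha.1.1 ha.1.2 ha.2⟩
  have hsub : nbr X.G X.A P \ img n' c' ⊆
      ((Icc (p - (τ + 1)) (p - 1) ∪ Icc (q + 1) (q + τ + 1)) ∪ J).image c := by
    intro x hx
    rw [mem_sdiff, himg, List.mem_toFinset, hR.mem] at hx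
    obtain ⟨hxn, hxl⟩ := hx
    obtain ⟨j, hj, hjI, hjc, hor⟩ := (ps2 x).1 hxn
    rw [mem_image]
    refine ⟨j, ?_, hjc.symm⟩
    have hjR : j ∈ Ioo l l' ∪ Ioo w w' := by
      by_contra hcon
      exact hxl (Or.inl ⟨j, hj, hcon, hjc.symm⟩)
    rcases mem_union.1 hjR with hjl | hjw
    · rw [mem_Ioo] at hjl
      refine mem_union_left _ ?_
      rw [mem_union, mem_Icc, mem_Icc]
      rw [mem_Icc] at hjI
      rcases hor with ⟨i, hi, hc⟩ | ⟨K, hK, hKj, i, hi, hKi⟩
      · rw [mem_Icc] at hi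
        unfold Pool.Agent.W957.CH.cons at hc
        omega
      · rw [mem_Icc] at hi
        rcases lt_trichotomy i j with hij | hij | hij
        · have := h4 V X n c τ σ i j K hS hij (by omega)
            (fun r h1 h2 => hP.cl r (by omega) (by omega)) hK hKi hKj
          omega
        · omega
        · have := h4 V X n c τ σ j i K hS hij (by omega)
            (fun r h1 h2 => hP.cl r (by omega) (by omega)) hK hKj hKi
          omega
    · rw [mem_Ioo] at hjw
      refine mem_union_right _ ?_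
      rw [hJ]
      exact ⟨hjw, by rw [← hjc]; exact hxn⟩
  have hle : (nbr X.G X.A P \ img n' c').card ≤ 2 * τ + 3 := by
    refine (card_le_card hsub).trans (card_image_le.trans ?_)
    refine (card_union_le _ _).trans ?_
    have e1 := card_union_le (Icc (p - (τ + 1)) (p - 1)) (Icc (q + 1) (q + τ + 1))
    rw [Nat.card_Icc, Nat.card_Icc] at e1
    omega
  have hPB : (P ∩ X.B).card = 0 := by
    rw [card_eq_zero, ← disjoint_iff_inter_eq_empty]
    exact ps1
  have hX := h3 V X n' c' P (4 * τ + 8) hS.ok hg' hcon hPA hdis (by omega)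
  have htot : (nbr X.G X.A P).card =
      (nbr X.G X.A P \ img n' c').card + (nbr X.G X.A P ∩ img n' c').card := by
    rw [card_sdiff_add_card_inter]
  unfold bb at hcard
  omega

end Pool.Agent.W585.CH.PP
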